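import Mathlib
import Pool.Agent.Q215.RotB

/-!
# The circle homeomorphisms with irrational rotation number form a Haar null set

We consider the group of the orientation-preserving homeomorphisms of the circle `ℝ/ℤ` with the
topology of uniform convergence and prove that the set of those with irrational rotation number is
Haar null. The witnessing measure is the law of a random infinite product of maps, the `n`-th of
which squeezes almost the whole circle into few tiny arcs, at random positions.
-/

set_option autoImplicit false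

namespace Pool.Agent.Results.MP_e0518f_lc.IrrationalRotation

open Topology Filter Pool.Agent.Q215.Rot

/-- The circle `ℝ/ℤ`. -/
abbrev Circ : Type := AddCircle (1 : ℝ)

/-- `F` is a lift of `f`: a continuous nondecreasing map `F : ℝ → ℝ` with `F (x + 1) = F x + 1`
(`CircleDeg1Lift` is Mathlib's type of the nondecreasing maps with the latter property) which
induces `f` on `ℝ/ℤ`. -/
def IsLift (F : CircleDeg1Lift) (f : Circ ≃ₜ Circ) : Prop :=
  Continuous F ∧ ∀ x : ℝ, f (x : Circ) = ((F x : ℝ) : Circ)

theorem coe_eq {x y : ℝ} (h : (x : Circ) = (y : Circ)) : ∃ n : ℤ, x = y + n := by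
  have h1 : ((x - y : ℝ) : Circ) = 0 := by
    rw [AddCircle.coe_sub, h, sub_self]
  rw [AddCircle.coe_eq_zero_iff] at h1
  obtain ⟨n, hn⟩ := h1
  refine ⟨n, ?_⟩
  rw [zsmul_eq_mul, mul_one] at hn
  linarith

theorem coe_add_int (x : ℝ) (n : ℤ) : ((x + n : ℝ) : Circ) = (x : Circ) := by
  rw [AddCircle.coe_add]
  have : ((n : ℝ) : Circ) = 0 := by
    rw [AddCircle.coe_eq_zero_iff]
    exact ⟨n, by simp⟩
  rw [this, add_zero]

theorem lift_inj {F : CircleDeg1Lift} {f : Circ ≃ₜ Circ} (h : IsLift F f) :
    Function.Injective F := by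
  intro x y hxy
  have h1 : f (x : Circ) = f (y : Circ) := by rw [h.2, h.2, hxy]
  obtain ⟨n, hn⟩ := coe_eq (f.injective h1)
  rw [hn, F.map_add_int] at hxy
  have : (n : ℝ) = 0 := by linarith
  rw [hn, this, add_zero]

/-- The group of the orientation-preserving homeomorphisms of the circle, as a subgroup of the
group of all the homeomorphisms. -/
def Plus : Subgroup (Circ ≃ₜ Circ) where
  carrier := {f | ∃ F, IsLift F f}
  mul_mem' := by
    rintro f g ⟨F, hF, hf⟩ ⟨G, hG, hg⟩
    refine ⟨F * G, hF.comp hG, fun x => ?_⟩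
    show f (g (x : Circ)) = _
    rw [hg, hf]
    rfl
  one_mem' := ⟨1, continuous_id, fun _ => rfl⟩
  inv_mem' := by
    rintro f ⟨F, hF, hf⟩
    have h1 : Function.Bijective F := ⟨lift_inj ⟨hF, hf⟩, F.continuous_iff_surjective.mp hF⟩
    obtain ⟨U, hU⟩ := CircleDeg1Lift.isUnit_iff_bijective.mpr h1
    refine ⟨((U⁻¹ : CircleDeg1Liftˣ) : CircleDeg1Lift), ?_, fun x => ?_⟩
    · rw [CircleDeg1Lift.continuous_iff_surjective]
      intro y
      exact ⟨U y, CircleDeg1Lift.units_inv_apply_apply U y⟩
    · have h2 : f ((((U⁻¹ : CircleDeg1Liftˣ) : CircleDeg1Lift) x : ℝ) : Circ) = (x : Circ) := by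
        rw [hf, ← hU, CircleDeg1Lift.units_apply_inv_apply]
      show f.symm (x : Circ) = _
      rw [← h2, Homeomorph.symm_apply_apply]

/-- The group `H₊(S¹)` of the orientation-preserving homeomorphisms of the circle. -/
def HPlus : Type := Plus

instance : Group HPlus := inferInstanceAs (Group Plus)

/-- The continuous self-map of the circle given by an element of `H₊(S¹)`. -/
def toMap (f : HPlus) : C(Circ, Circ) :=
  ⟨fun x => Homeomorph.toEquiv f.1 x, Homeomorph.continuous f.1⟩

/-- The topology of uniform convergence (the compact-open topology) on `H₊(S¹)`. -/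
instance : TopologicalSpace HPlus := TopologicalSpace.induced toMap inferInstance

/-- `A` is Haar null: it is contained in a Borel set `C` such that, for some Borel probability
measure, all two-sided translates `gCh` have measure zero. -/
def HaarNull (A : Set HPlus) : Prop :=
  ∃ C : Set HPlus, @MeasurableSet HPlus (borel HPlus) C ∧ A ⊆ C ∧
    ∃ μ : @MeasureTheory.Measure HPlus (borel HPlus),
      @MeasureTheory.IsProbabilityMeasure HPlus (borel HPlus) μ ∧
      ∀ g h : HPlus, μ ((fun x => g * x * h) '' C) = 0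

/-- The set of the elements of `H₊(S¹)` with irrational rotation number; the rotation number of `f`
is, modulo one, the translation number `lim (F^n x - x) / n` of a lift `F` of `f`. -/
def IrrationalRotationNumber : Set HPlus :=
  {f | ∃ F : CircleDeg1Lift, IsLift F f.1 ∧ Irrational F.translationNumber}

theorem toMap_mul (f g : HPlus) : toMap (f * g) = (toMap f).comp (toMap g) := rfl

theorem continuous_toMap : Continuous (toMap : HPlus → C(Circ, Circ)) := continuous_induced_dom

theorem continuous_two (g h : HPlus) : Continuous (fun x : HPlus => g * x * h) := by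
  rw [continuous_induced_rng]
  have : (toMap ∘ fun x : HPlus => g * x * h) =
      fun x => ((toMap g).comp (toMap x)).comp (toMap h) := rfl
  rw [this]
  exact (continuous_const.compCM continuous_toMap).compCM continuous_const

/-- the elements without periodic points -/
def NoPer : Set HPlus := {f | ∃ q : ℕ, 0 < q ∧ ∃ z : Circ, (toMap f)^[q] z = z}ᶜ

theorem measurable_noPer : @MeasurableSet HPlus (borel HPlus) NoPer := by
  let _ : MeasurableSpace HPlus := borel HPlus
  have _ : BorelSpace HPlus := ⟨rfl⟩
  apply MeasurableSet.compl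
  have h1 : {f : HPlus | ∃ q : ℕ, 0 < q ∧ ∃ z : Circ, (toMap f)^[q] z = z} =
      ⋃ q : ℕ, ⋃ _ : 0 < q, {f : HPlus | ∃ z : Circ, (toMap f)^[q] z = z} := by
    ext f
    simp only [Set.mem_iUnion, exists_prop]
    rfl
  rw [h1]
  refine MeasurableSet.iUnion fun q => MeasurableSet.iUnion fun _ => ?_
  apply IsClosed.measurableSet
  let Ψ : HPlus × Circ → HPlus × Circ := fun p => (p.1, toMap p.1 p.2)
  have hΨ : Continuous Ψ := by
    have h2 : Continuous (fun p : HPlus × Circ => toMap p.1 p.2) :=
      (continuous_toMap.comp continuous_fst).eval continuous_snd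
    exact continuous_fst.prodMk h2
  have hit : ∀ (r : ℕ) (p : HPlus × Circ), Ψ^[r] p = (p.1, (toMap p.1)^[r] p.2) := by
    intro r
    induction r with
    | zero => intro p; rfl
    | succ r ih =>
      intro p
      rw [Function.iterate_succ_apply, ih]
      rfl
  have hcl : IsClosed {p : HPlus × Circ | (Ψ^[q] p).2 = p.2} :=
    isClosed_eq (continuous_snd.comp (hΨ.iterate q)) continuous_snd
  have h3 := isClosedMap_fst_of_compactSpace (X := HPlus) (Y := Circ) _ hcl
  have h4 : {f : HPlus | ∃ z : Circ, (toMap f)^[q] z = z} =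
      Prod.fst '' {p : HPlus × Circ | (Ψ^[q] p).2 = p.2} := by
    ext f
    constructor
    · rintro ⟨z, hz⟩
      refine ⟨(f, z), ?_, rfl⟩
      show (Ψ^[q] (f, z)).2 = z
      rw [hit]
      exact hz
    · rintro ⟨⟨f', z⟩, hz, rfl⟩
      refine ⟨z, ?_⟩
      have hz' : (Ψ^[q] (f', z)).2 = z := hz
      rw [hit] at hz'
      exact hz'
  rw [h4]
  exact h3

theorem iterate_lift {F : CircleDeg1Lift} {f : HPlus} (h : IsLift F f.1) (q : ℕ) (x : ℝ) :
    (toMap f)^[q] (x : Circ) = ((F^[q] x : ℝ) : Circ) := by
  induction q generalizing x with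
  | zero => rfl
  | succ q ih =>
    rw [Function.iterate_succ_apply, Function.iterate_succ_apply, ← ih]
    congr 1
    exact h.2 x

theorem irr_subset : IrrationalRotationNumber ⊆ NoPer := by
  rintro f ⟨F, hF, hirr⟩ ⟨q, hq, z, hz⟩
  induction z using QuotientAddGroup.induction_on with
  | H x =>
    have h1 := iterate_lift hF q x
    have h2 : ((F^[q] x : ℝ) : Circ) = ((x : ℝ) : Circ) := h1.symm.trans hz
    obtain ⟨p, hp⟩ := coe_eq h2
    have h3 : (F ^ q) x = x + p := by
      rw [CircleDeg1Lift.coe_pow]
      exact hp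
    have h4 := CircleDeg1Lift.translationNumber_of_map_pow_eq_add_int F h3 hq
    rw [h4] at hirr
    apply hirr
    exact ⟨(p : ℚ) / (q : ℚ), by push_cast; rfl⟩

/-- the circle map induced by a lift -/
def ind (F : CircleDeg1Lift) : Circ → Circ :=
  Function.Periodic.lift (f := fun x : ℝ => ((F x : ℝ) : Circ)) (c := (1 : ℝ)) (fun x => by
    show ((F (x + 1) : ℝ) : Circ) = ((F x : ℝ) : Circ)
    rw [F.map_add_one]
    have := coe_add_int (F x) 1
    rwa [Int.cast_one] at this)

theorem ind_coe (F : CircleDeg1Lift) (x : ℝ) : ind F (x : Circ) = ((F x : ℝ) : Circ) := rfl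

theorem ind_joint : Continuous (fun p : Om × Circ => ind (TT p.1 0) p.2) := by
  have hq : IsOpenQuotientMap (Prod.map (id : Om → Om) ((↑) : ℝ → Circ)) :=
    IsOpenQuotientMap.id.prodMap QuotientAddGroup.isOpenQuotientMap_mk
  rw [← hq.continuous_comp_iff]
  exact (AddCircle.continuous_mk' 1).comp (TT_joint 0)

theorem ind_bij (ω : Om) : Function.Bijective (ind (TT ω 0)) := by
  constructor
  · intro a b hab
    induction a using QuotientAddGroup.induction_on with
    | H x =>
      induction b using QuotientAddGroup.induction_on with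
      | H y =>
        have h1 : ((TT ω 0 x : ℝ) : Circ) = ((TT ω 0 y : ℝ) : Circ) := hab
        obtain ⟨n, hn⟩ := coe_eq h1
        rw [← CircleDeg1Lift.map_add_int] at hn
        have h2 := TT_inj ω hn
        rw [h2]
        exact coe_add_int y n
  · intro b
    induction b using QuotientAddGroup.induction_on with
    | H y =>
      obtain ⟨x, hx⟩ := (TT ω 0).continuous_iff_surjective.mp (TT_cont ω 0) y
      refine ⟨(x : Circ), ?_⟩
      rw [ind_coe, hx]

theorem ind_cont (F : CircleDeg1Lift) (hF : Continuous F) : Continuous (ind F) := by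
  have hq : IsOpenQuotientMap ((↑) : ℝ → Circ) := QuotientAddGroup.isOpenQuotientMap_mk
  rw [← hq.continuous_comp_iff]
  exact (AddCircle.continuous_mk' 1).comp hF

/-- the random homeomorphism -/
noncomputable def rh (ω : Om) : Circ ≃ₜ Circ :=
  Continuous.homeoOfEquivCompactToT2 (f := Equiv.ofBijective (ind (TT ω 0)) (ind_bij ω))
    (ind_cont (TT ω 0) (TT_cont ω 0))

theorem rh_apply (ω : Om) (z : Circ) : rh ω z = ind (TT ω 0) z := rfl

/-- the random homeomorphism as an element of the group -/
noncomputable def rp (ω : Om) : HPlus := ⟨rh ω, TT ω 0, TT_cont ω 0, fun _ => rfl⟩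

theorem rp_continuous : Continuous rp := by
  rw [continuous_induced_rng]
  exact ContinuousMap.continuous_of_continuous_uncurry _ ind_joint

/-- averaging over finitely many translations -/
theorem avg {Ω : Type} [AddGroup Ω] [MeasurableSpace Ω] [MeasurableAdd Ω]
    (μ : MeasureTheory.Measure Ω) [MeasureTheory.IsProbabilityMeasure μ] [μ.IsAddLeftInvariant]
    {ι : Type} [Fintype ι] (v : ι → Ω) (B : Set Ω) (hB : MeasurableSet B) (c : ENNReal)
    (h : ∀ ω, ∑ s : ι, B.indicator (1 : Ω → ENNReal) (v s + ω) ≤ c) :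
    (Fintype.card ι : ENNReal) * μ B ≤ c := by
  have h1 : ∀ s, ∫⁻ ω, B.indicator (1 : Ω → ENNReal) (v s + ω) ∂μ = μ B := by
    intro s
    rw [MeasureTheory.lintegral_add_left_eq_self (μ := μ) (B.indicator (1 : Ω → ENNReal)) (v s)]
    exact MeasureTheory.lintegral_indicator_one hB
  have h2 : ∑ s : ι, ∫⁻ ω, B.indicator (1 : Ω → ENNReal) (v s + ω) ∂μ =
      (Fintype.card ι : ENNReal) * μ B := by
    rw [Finset.sum_congr rfl (fun s _ => h1 s), Finset.sum_const, nsmul_eq_mul]
    rfl
  rw [← h2, ← MeasureTheory.lintegral_finsetSum]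
  · calc _ ≤ ∫⁻ _, c ∂μ := MeasureTheory.lintegral_mono h
      _ = c := by simp
  · intro s _
    exact (measurable_one.indicator hB).comp (measurable_const_add (v s))

instance (n : ℕ) : NeZero (ms n) := ⟨(ms_pos n).ne'⟩

theorem not_noPer (g h : HPlus) (G H : CircleDeg1Lift) (hG : IsLift G g.1) (hH : IsLift H h.1)
    (ω : Om) (hper : ∃ q : ℕ, 0 < q ∧ ∃ p : ℤ, ∃ x : ℝ, (H * G * TT ω 0)^[q] x = x + p) :
    g * rp ω * h ∉ NoPer := by
  obtain ⟨q, hq, p, x, hx⟩ := hper
  intro hc
  apply hc
  have hL : IsLift (G * TT ω 0 * H) (g * rp ω * h).1 := by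
    refine ⟨(hG.1.comp (TT_cont ω 0)).comp hH.1, fun x => ?_⟩
    show g.1 (rh ω (h.1 (x : Circ))) = ((G (TT ω 0 (H x)) : ℝ) : Circ)
    rw [hH.2 x]
    have h1 : rh ω ((H x : ℝ) : Circ) = ((TT ω 0 (H x) : ℝ) : Circ) := rfl
    rw [h1, hG.2]
  refine ⟨q, hq, (((G * TT ω 0) x : ℝ) : Circ), ?_⟩
  rw [iterate_lift hL q]
  have hs : Function.Semiconj (G * TT ω 0 : CircleDeg1Lift) (H * G * TT ω 0 : CircleDeg1Lift)
      (G * TT ω 0 * H : CircleDeg1Lift) := fun y => rfl
  rw [← (hs.iterate_right q).eq x, hx, CircleDeg1Lift.map_add_int, coe_add_int]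

/-- every two-sided translate of the set of the elements without periodic points is null -/
theorem null (μ : @MeasureTheory.Measure Om (borel Om))
    (hμ : @MeasureTheory.IsProbabilityMeasure Om (borel Om) μ)
    (hinv : @MeasureTheory.Measure.IsAddLeftInvariant Om (borel Om) _ μ) (g h : HPlus) :
    μ {ω | g * rp ω * h ∈ NoPer} = 0 := by
  let _ : MeasurableSpace Om := borel Om
  have _ : BorelSpace Om := ⟨rfl⟩
  have hB : MeasurableSet {ω | g * rp ω * h ∈ NoPer} := by
    let _ : MeasurableSpace HPlus := borel HPlus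
    have _ : BorelSpace HPlus := ⟨rfl⟩
    exact ((continuous_two g h).comp rp_continuous).measurable measurable_noPer
  obtain ⟨G, hG⟩ := g.2
  obtain ⟨H, hH⟩ := h.2
  have key : ∀ n : ℕ, μ {ω | g * rp ω * h ∈ NoPer} ≤ ENNReal.ofReal ((1 / 2) ^ n) := by
    intro n
    have hav := avg μ (fun s : ZMod (ms n) × ZMod (ms n) => (Pi.single n s : Om)) _ hB
      (ENNReal.ofReal ((1 / 2) ^ n * (ms n) ^ 2)) (by
        intro ω
        obtain ⟨bad, hb1, hb2⟩ := few ω n (H * G) (hH.1.comp hG.1)
        classical
        have h1 : ∀ s : ZMod (ms n) × ZMod (ms n),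
            {ω | g * rp ω * h ∈ NoPer}.indicator (1 : Om → ENNReal) ((Pi.single n s : Om) + ω) ≤
              if s + ω n ∈ bad then 1 else 0 := by
          intro s
          split_ifs with hs
          · exact Set.indicator_le_self' (fun _ _ => zero_le) _
          · rw [Set.indicator_of_notMem]
            apply not_noPer g h G H hG hH
            apply hb2
            · intro i hi
              rw [Pi.add_apply, Pi.single_eq_of_ne hi, zero_add]
            · rwa [Pi.add_apply, Pi.single_eq_same]
        refine le_trans (Finset.sum_le_sum fun s _ => h1 s) ?_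
        rw [Finset.sum_boole]
        have h2 : (Finset.univ.filter fun s : ZMod (ms n) × ZMod (ms n) => s + ω n ∈ bad).card ≤
            bad.card := by
          apply Finset.card_le_card_of_injOn (fun s => s + ω n)
          · intro s hs
            exact (Finset.mem_filter.mp hs).2
          · intro a _ b _ hab
            exact add_right_cancel hab
        calc (((Finset.univ.filter fun s : ZMod (ms n) × ZMod (ms n) =>
                s + ω n ∈ bad).card : ℕ) : ENNReal) ≤ (bad.card : ENNReal) := by exact_mod_cast h2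
          _ = ENNReal.ofReal (bad.card : ℝ) := (ENNReal.ofReal_natCast _).symm
          _ ≤ _ := ENNReal.ofReal_le_ofReal hb1)
    have hcard : (Fintype.card (ZMod (ms n) × ZMod (ms n)) : ENNReal) =
        ENNReal.ofReal ((ms n) ^ 2) := by
      rw [Fintype.card_prod, ZMod.card]
      rw [← Nat.cast_pow, ENNReal.ofReal_natCast, sq]
    have hpos : (0 : ℝ) < (ms n) ^ 2 := by
      have : (0 : ℝ) < ms n := by exact_mod_cast ms_pos n
      positivity
    rw [hcard, ENNReal.ofReal_mul (by positivity), mul_comm] at hav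
    exact (ENNReal.mul_le_mul_iff_left (by
      rw [Ne, ENNReal.ofReal_eq_zero]
      linarith) ENNReal.ofReal_ne_top).mp hav
  have h3 : Tendsto (fun n : ℕ => ENNReal.ofReal ((1 / 2) ^ n)) atTop (𝓝 (ENNReal.ofReal 0)) :=
    ENNReal.tendsto_ofReal (tendsto_pow_atTop_nhds_zero_of_lt_one (by norm_num) (by norm_num))
  rw [ENNReal.ofReal_zero] at h3
  exact le_antisymm (ge_of_tendsto' h3 key) zero_le

/-- The set of the orientation-preserving homeomorphisms of the circle with irrational rotation
number is Haar null. -/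
theorem result : HaarNull IrrationalRotationNumber := by
  let _ : MeasurableSpace Om := borel Om
  have _ : BorelSpace Om := ⟨rfl⟩
  let μ : MeasureTheory.Measure Om := MeasureTheory.Measure.addHaarMeasure ⊤
  have hμ : MeasureTheory.IsProbabilityMeasure μ := by
    constructor
    have := MeasureTheory.Measure.addHaarMeasure_self (K₀ := (⊤ : TopologicalSpace.PositiveCompacts Om))
    exact this
  let _ : MeasurableSpace HPlus := borel HPlus
  have _ : BorelSpace HPlus := ⟨rfl⟩
  have hm : Measurable rp := rp_continuous.measurable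
  refine ⟨NoPer, measurable_noPer, irr_subset, μ.map rp,
    MeasureTheory.Measure.isProbabilityMeasure_map hm.aemeasurable, fun g h => ?_⟩
  have h1 : (fun x => g * x * h) '' NoPer = (fun x => g⁻¹ * x * h⁻¹) ⁻¹' NoPer := by
    ext x
    constructor
    · rintro ⟨y, hy, rfl⟩
      show g⁻¹ * (g * y * h) * h⁻¹ ∈ NoPer
      have : g⁻¹ * (g * y * h) * h⁻¹ = y := by group
      rwa [this]
    · intro hx
      exact ⟨g⁻¹ * x * h⁻¹, hx, by group⟩
  have h2 : MeasurableSet ((fun x => g⁻¹ * x * h⁻¹) ⁻¹' NoPer) :=
    (continuous_two g⁻¹ h⁻¹).measurable measurable_noPer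
  rw [h1, MeasureTheory.Measure.map_apply hm h2]
  exact null μ hμ inferInstance g⁻¹ h⁻¹

end Pool.Agent.Results.MP_e0518f_lc.IrrationalRotation
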